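import Pool.Agent.H59.Zar.Om

/-!
# Section 4 of `db5e86_proof`: the expansions at `t = 0` of the Jacobi operators
-/

set_option autoImplicit false
set_option linter.unusedSectionVars false

open scoped InnerProductSpace Topology ContDiff
open Set Filter

namespace Pool.Agent.H20.D4

open Pool.Agent.H91.GE Pool.Agent.H59.LV Pool.Agent.H59.ND Pool.Agent.H59.Zar

variable {E F : Type*} [NormedAddCommGroup E] [InnerProductSpace ℝ E] [FiniteDimensional ℝ E]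
  [NormedAddCommGroup F] [InnerProductSpace ℝ F] [FiniteDimensional ℝ F]
  {S : Set E} {A : E × E → E} {K K₂ : NNReal} {Φ : ℝ → E × E → E × E} {n : ℕ}

/-- `t⁻¹ J t` with value `1` at `0`. -/
noncomputable def quo (J : ℝ → E →L[ℝ] E) (t : ℝ) : E →L[ℝ] E := if t = 0 then 1 else t⁻¹ • J t

theorem quo_ne {J : ℝ → E →L[ℝ] E} {t : ℝ} (ht : t ≠ 0) : quo J t = t⁻¹ • J t := if_neg ht

theorem quo_zero {J : ℝ → E →L[ℝ] E} : quo J 0 = 1 := if_pos rfl

theorem quo_cont {J : ℝ → E →L[ℝ] E} (h0 : J 0 = 0)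
    (hJ : HasDerivAt (F := E →L[ℝ] E) J 1 0) : ContinuousAt (quo J) 0 := by
  rw [continuousAt_iff_punctured_nhds, quo_zero]
  have h1 := hasDerivAt_iff_tendsto_slope.1 hJ
  refine h1.congr' ?_
  filter_upwards [self_mem_nhdsWithin] with t ht
  rw [quo_ne ht, slope_def_module, h0, sub_zero, sub_zero]

/-- The expansion of order two. -/
theorem quo_deriv {J C : ℝ → E →L[ℝ] E} {D : E →L[ℝ] E} (h0 : J 0 = 0)
    (hJ : ∀ t, HasDerivAt (F := E →L[ℝ] E) J (C t) t) (hC0 : C 0 = 1)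
    (hC : HasDerivAt (F := E →L[ℝ] E) C D 0) :
    HasDerivAt (F := E →L[ℝ] E) (quo J) ((1 / 2 : ℝ) • D) 0 := by
  rw [hasDerivAt_iff_isLittleO, Asymptotics.isLittleO_iff]
  rw [hasDerivAt_iff_isLittleO] at hC
  intro ε hε
  have h1 := (Asymptotics.isLittleO_iff.1 hC) hε
  obtain ⟨δ, hδ, h2⟩ := Metric.eventually_nhds_iff_ball.1 h1
  filter_upwards [Metric.ball_mem_nhds (0 : ℝ) hδ] with t ht
  rcases eq_or_ne t 0 with rfl | ht0
  · simp
  rw [quo_zero, quo_ne ht0, sub_zero]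
  set f : ℝ → E →L[ℝ] E := fun s => J s - s • (1 : E →L[ℝ] E) - (s ^ 2 / 2) • D with hf
  have hfd : ∀ s, HasDerivAt (F := E →L[ℝ] E) f (C s - 1 - s • D) s := by
    intro s
    have e1 : HasDerivAt (F := E →L[ℝ] E) (fun s : ℝ => s • (1 : E →L[ℝ] E)) 1 s := by
      have := (hasDerivAt_id s).smul_const (1 : E →L[ℝ] E)
      simpa using this
    have e2 : HasDerivAt (F := E →L[ℝ] E) (fun s : ℝ => (s ^ 2 / 2) • D) (s • D) s := by
      have e3 : HasDerivAt (fun s : ℝ => s ^ 2 / 2) s s := by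
        have := (hasDerivAt_pow 2 s).div_const 2
        refine this.congr_deriv ?_
        norm_num
      exact e3.smul_const D
    exact ((hJ s).sub e1).sub e2
  have hb : ∀ s ∈ Icc (-|t|) |t|, ‖C s - 1 - s • D‖ ≤ ε * |t| := by
    intro s hs
    have hs' : |s| ≤ |t| := abs_le.2 hs
    have hsδ : s ∈ Metric.ball (0 : ℝ) δ := by
      rw [mem_ball_zero_iff, Real.norm_eq_abs] at ht ⊢
      exact hs'.trans_lt ht
    have h3 := h2 s hsδ
    rw [hC0, sub_zero, Real.norm_eq_abs] at h3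
    exact h3.trans (mul_le_mul_of_nonneg_left hs' hε.le)
  have h4 := Convex.norm_image_sub_le_of_norm_hasDerivWithin_le (G := E →L[ℝ] E) (f := f)
    (f' := fun s => C s - 1 - s • D) (C := ε * |t|)
    (s := Icc (-|t|) |t|) (x := 0) (y := t) (fun s _ => (hfd s).hasDerivWithinAt) hb
    (convex_Icc _ _) ⟨by simp, abs_nonneg t⟩ ⟨neg_abs_le t, le_abs_self t⟩
  have hf0 : f 0 = 0 := by rw [hf]; simp [h0]
  rw [hf0, sub_zero, sub_zero, Real.norm_eq_abs] at h4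
  have h5 : t⁻¹ • J t - 1 - t • (1 / 2 : ℝ) • D = t⁻¹ • f t := by
    rw [hf]
    simp only
    rw [smul_sub, smul_sub, smul_smul, smul_smul, smul_smul, inv_mul_cancel₀ ht0, one_smul]
    congr 2
    field_simp
  rw [h5, norm_smul, norm_inv, Real.norm_eq_abs]
  have h6 : 0 < |t| := abs_pos.2 ht0
  calc |t|⁻¹ * ‖f t‖ ≤ |t|⁻¹ * (ε * |t| * |t|) := by gcongr
    _ = ε * |t| := by field_simp

/-- The derivative of the flow as a function of time. -/
theorem smooth_G (h : GFlow F S A K K₂ Φ) (w : E × E) :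
    ContDiff ℝ ∞ (fun t => fderiv ℝ (Φ t) w) := by
  have h1 : ContDiff ℝ ∞ (Function.uncurry Φ) := h.contDiff
  exact ContDiff.fderiv (n := ∞) (m := ∞) h1 contDiff_const (by norm_num)

theorem smooth_Gi (h : GFlow F S A K K₂ Φ) (w : E × E) :
    ContDiff ℝ ∞ (fun t => fderiv ℝ (Φ (-t)) (Φ t w)) := by
  have h1 : ContDiff ℝ ∞ (Function.uncurry fun t => Φ (-t)) :=
    h.contDiff.comp ((contDiff_fst.neg).prodMk contDiff_snd)
  have h2 : ContDiff ℝ ∞ (fun t => Φ t w) := h.contDiff.comp (contDiff_id.prodMk contDiff_const)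
  exact ContDiff.fderiv (n := ∞) (m := ∞) h1 h2 (by norm_num)

/-- The derivative at `t` of the derivative of the flow. -/
noncomputable def G' (Φ : ℝ → E × E → E × E) (A : E × E → E) (w : E × E) (t : ℝ) :
    (E × E) →L[ℝ] (E × E) :=
  ((ContinuousLinearMap.snd ℝ E E) ∘L fderiv ℝ (Φ t) w).prod
    (fderiv ℝ A (Φ t w) ∘L fderiv ℝ (Φ t) w)

theorem hasDerivAt_G (h : GFlow F S A K K₂ Φ) (w : E × E) (t : ℝ) :
    HasDerivAt (F := (E × E) →L[ℝ] (E × E)) (fun t => fderiv ℝ (Φ t) w) (G' Φ A w t) t := by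
  have h1 : HasDerivAt (F := (E × E) →L[ℝ] (E × E)) (fun t => fderiv ℝ (Φ t) w)
      (deriv (fun t => fderiv ℝ (Φ t) w) t) t :=
    (((smooth_G h w).differentiable (by simp)) t).hasDerivAt
  have h2 : deriv (fun t => fderiv ℝ (Φ t) w) t = G' Φ A w t := by
    refine ContinuousLinearMap.ext fun a => ?_
    have h3 := (h1.clm_apply (hasDerivAt_const t a)).unique (by
      exact hasDerivAt_jac h w a t)
    rw [map_zero, add_zero] at h3
    exact h3
  rw [h2] at h1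
  exact h1

theorem G_zero (h : GFlow F S A K K₂ Φ) (w : E × E) :
    fderiv ℝ (Φ 0) w = ContinuousLinearMap.id ℝ (E × E) :=
  ContinuousLinearMap.ext fun a => fderiv_flow_zero h w a

theorem hasDerivAt_Gi (h : GFlow F S A K K₂ Φ) (w : E × E) :
    HasDerivAt (F := (E × E) →L[ℝ] (E × E)) (fun t => fderiv ℝ (Φ (-t)) (Φ t w))
      (-G' Φ A w 0) 0 := by
  have h1 : HasDerivAt (F := (E × E) →L[ℝ] (E × E)) (fun t => fderiv ℝ (Φ (-t)) (Φ t w))
      (deriv (fun t => fderiv ℝ (Φ (-t)) (Φ t w)) 0) 0 :=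
    (((smooth_Gi h w).differentiable (by simp)) 0).hasDerivAt
  have h2 := h1.clm_comp (hasDerivAt_G h w 0)
  have h3 : (fun t => (fderiv ℝ (Φ (-t)) (Φ t w)) ∘L fderiv ℝ (Φ t) w)
      = fun _ => ContinuousLinearMap.id ℝ (E × E) :=
    funext fun t => ContinuousLinearMap.ext fun a => fderiv_flow_inv h t w a
  rw [h3] at h2
  have h4 := h2.unique (hasDerivAt_const (0 : ℝ) (ContinuousLinearMap.id ℝ (E × E)))
  rw [G_zero h, neg_zero, h.flow.zero, G_zero h, ContinuousLinearMap.comp_id,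
    ContinuousLinearMap.id_comp] at h4
  rw [eq_neg_of_add_eq_zero_left h4] at h1
  exact h1

/-- The operators. -/
noncomputable def J1 (Φ : ℝ → E × E → E × E) (w : E × E) (t : ℝ) : E →L[ℝ] E :=
  (ContinuousLinearMap.fst ℝ E E) ∘L (fderiv ℝ (Φ t) w) ∘L (ContinuousLinearMap.inr ℝ E E)

noncomputable def C1 (Φ : ℝ → E × E → E × E) (w : E × E) (t : ℝ) : E →L[ℝ] E :=
  (ContinuousLinearMap.snd ℝ E E) ∘L (fderiv ℝ (Φ t) w) ∘L (ContinuousLinearMap.inr ℝ E E)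

noncomputable def J2 (Φ : ℝ → E × E → E × E) (w : E × E) (t : ℝ) : E →L[ℝ] E :=
  -((ContinuousLinearMap.fst ℝ E E) ∘L (fderiv ℝ (Φ (-t)) (Φ t w)) ∘L
    (ContinuousLinearMap.inr ℝ E E))

noncomputable def K1 (Φ : ℝ → E × E → E × E) (w : E × E) (t : ℝ) : (E × E) →L[ℝ] E :=
  (ContinuousLinearMap.fst ℝ E E) ∘L (fderiv ℝ (Φ t) w)

noncomputable def K2 (Φ : ℝ → E × E → E × E) (w : E × E) (t : ℝ) : (E × E) →L[ℝ] E :=
  (ContinuousLinearMap.snd ℝ E E) ∘L (fderiv ℝ (Φ t) w)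

noncomputable def DA (A : E × E → E) (w : E × E) : E →L[ℝ] E :=
  (fderiv ℝ A w) ∘L (ContinuousLinearMap.inr ℝ E E)

theorem J1_apply (w : E × E) (t : ℝ) (x : E) :
    J1 Φ w t x = (fderiv ℝ (Φ t) w (0, x)).1 := rfl

theorem C1_apply (w : E × E) (t : ℝ) (x : E) :
    C1 Φ w t x = (fderiv ℝ (Φ t) w (0, x)).2 := rfl

theorem J2_apply (w : E × E) (t : ℝ) (x : E) :
    J2 Φ w t x = -(fderiv ℝ (Φ (-t)) (Φ t w) (0, x)).1 := rfl

theorem K1_apply (w : E × E) (t : ℝ) (k : E × E) :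
    K1 Φ w t k = (fderiv ℝ (Φ t) w k).1 := rfl

theorem K2_apply (w : E × E) (t : ℝ) (k : E × E) :
    K2 Φ w t k = (fderiv ℝ (Φ t) w k).2 := rfl

theorem DA_apply (w : E × E) (x : E) : DA A w x = fderiv ℝ A w (0, x) := rfl

theorem J1_zero (h : GFlow F S A K K₂ Φ) (w : E × E) : J1 Φ w 0 = 0 := by
  rw [J1, G_zero h]; rfl

theorem C1_zero (h : GFlow F S A K K₂ Φ) (w : E × E) : C1 Φ w 0 = 1 := by
  rw [C1, G_zero h]; rfl

theorem J2_zero (h : GFlow F S A K K₂ Φ) (w : E × E) : J2 Φ w 0 = 0 := by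
  rw [J2, neg_zero, h.flow.zero, G_zero h, neg_eq_zero]; rfl

theorem K1_zero (h : GFlow F S A K K₂ Φ) (w : E × E) :
    K1 Φ w 0 = ContinuousLinearMap.fst ℝ E E := by
  rw [K1, G_zero h]; rfl

theorem K2_zero (h : GFlow F S A K K₂ Φ) (w : E × E) :
    K2 Φ w 0 = ContinuousLinearMap.snd ℝ E E := by
  rw [K2, G_zero h]; rfl

theorem hK1 (h : GFlow F S A K K₂ Φ) (w : E × E) :
    HasDerivAt (F := (E × E) →L[ℝ] E) (K1 Φ w) (ContinuousLinearMap.snd ℝ E E) 0 := by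
  have h1 := (hasDerivAt_const (0 : ℝ) (ContinuousLinearMap.fst ℝ E E)).clm_comp
    (hasDerivAt_G h w 0)
  refine h1.congr_deriv ?_
  rw [G', G_zero h]
  ext x <;> simp

theorem hK2 (h : GFlow F S A K K₂ Φ) (w : E × E) :
    DifferentiableAt ℝ (F := (E × E) →L[ℝ] E) (K2 Φ w) 0 :=
  ((hasDerivAt_const (0 : ℝ) (ContinuousLinearMap.snd ℝ E E)).clm_comp
    (hasDerivAt_G h w 0)).differentiableAt

theorem hJ1 (h : GFlow F S A K K₂ Φ) (w : E × E) (t : ℝ) :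
    HasDerivAt (F := E →L[ℝ] E) (J1 Φ w) (C1 Φ w t) t := by
  have h1 := (hasDerivAt_const t (ContinuousLinearMap.fst ℝ E E)).clm_comp
    ((hasDerivAt_G h w t).clm_comp (hasDerivAt_const t (ContinuousLinearMap.inr ℝ E E)))
  refine h1.congr_deriv ?_
  ext x
  simp [G', C1]

theorem hC1 (h : GFlow F S A K K₂ Φ) (w : E × E) :
    HasDerivAt (F := E →L[ℝ] E) (C1 Φ w) (DA A w) 0 := by
  have h1 := (hasDerivAt_const (0 : ℝ) (ContinuousLinearMap.snd ℝ E E)).clm_comp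
    ((hasDerivAt_G h w 0).clm_comp (hasDerivAt_const (0 : ℝ) (ContinuousLinearMap.inr ℝ E E)))
  refine h1.congr_deriv ?_
  rw [G', G_zero h, h.flow.zero]
  ext x
  simp [DA]

theorem hJ2 (h : GFlow F S A K K₂ Φ) (w : E × E) :
    HasDerivAt (F := E →L[ℝ] E) (J2 Φ w) 1 0 := by
  have h1 := ((hasDerivAt_const (0 : ℝ) (ContinuousLinearMap.fst ℝ E E)).clm_comp
    ((hasDerivAt_Gi h w).clm_comp (hasDerivAt_const (0 : ℝ) (ContinuousLinearMap.inr ℝ E E)))).neg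
  refine h1.congr_deriv ?_
  rw [G', G_zero h, h.flow.zero]
  ext x
  simp

theorem hB (h : GFlow F S A K K₂ Φ) (w : E × E) :
    HasDerivAt (F := E →L[ℝ] E) (quo (J1 Φ w)) ((1 / 2 : ℝ) • DA A w) 0 :=
  quo_deriv (J1_zero h w) (hJ1 h w) (C1_zero h w) (hC1 h w)

theorem hB' (h : GFlow F S A K K₂ Φ) (w : E × E) : ContinuousAt (quo (J2 Φ w)) 0 :=
  quo_cont (J2_zero h w) (hJ2 h w)

end Pool.Agent.H20.D4
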